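import Pool.Agent.H44.DU.Targets

/-!
Module BD: backward determinism.
-/

set_option autoImplicit false

namespace Pool.Agent.H58.DU.BD

open Pool.Agent.H44.DU Pool.Agent.H44.DU.Surf

theorem pf_BD : T_BD := by
  intro n S t x x' u
  induction u using List.reverseRecOn with
  | nil =>
    intro u' l h h' hl he
    have hu : u' = [] := List.eq_nil_of_length_eq_zero hl.symm
    subst hu
    refine ⟨rfl, ?_⟩
    rw [List.nil_append, S.g_single, S.g_single] at he
    exact S.mv_inj t l he
  | append_singleton v k ih =>
    intro u' l h h' hl he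
    rcases List.eq_nil_or_concat u' with hu | ⟨v', k', hu⟩
    · subst hu; simp at hl
    · rw [List.concat_eq_append] at hu
      subst hu
      have hy : S.g t (v ++ [k]) x = S.g t (v' ++ [k']) x' := by
        rw [S.g_append t (v ++ [k]) [l], S.g_append t (v' ++ [k']) [l], S.g_single,
          S.g_single] at he
        exact S.mv_inj t l he
      rw [S.run_snoc] at h h'
      have h1 := (S.run_append t v [k] x).1 h.1
      have h2 := (S.run_append t v' [k'] x').1 h'.1
      have i1 : S.InI t (S.gl k) (S.g t (v ++ [k]) x) := by
        rw [S.g_append, S.g_single, S.inI_gl_iff]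
        exact (S.run_single t k _).1 h1.2.2
      have i2 : S.InI t (S.gl k') (S.g t (v ++ [k]) x) := by
        rw [hy, S.g_append, S.g_single, S.inI_gl_iff]
        exact (S.run_single t k' _).1 h2.2.2
      have hg : S.gl k = S.gl k' := S.entry_unique (h.2.1.trans h'.2.1.symm) i1 i2
      have hk : k = k' := by rw [← S.gl_gl k, hg, S.gl_gl]
      subst hk
      obtain ⟨e1, e2⟩ := ih v' k h.1 h'.1 (by simpa using hl) hy
      exact ⟨by rw [e1], e2⟩

end Pool.Agent.H58.DU.BD
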